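import Pool.Agent.helper59.FI.SpecB2

set_option autoImplicit false

namespace Pool.Agent.FI

open Pool.Agent.helper58.DC Pool.Agent.DI Pool.Agent.GR Pool.Agent.OB

section

variable {G : Type} [Group G]

/-- `P ⊔ zpowers y` is a `p`-group if `P` is one and `y` is a `p`-element that centralises `P`. -/
theorem CNR_pgroup {p : ℕ} {P : Subgroup G} (hP : IsPGroup p P) {y : G} (hy : y ∈ cz P)
    (hpe : PEl p y) : IsPGroup p (P ⊔ Subgroup.zpowers y : Subgroup G) := by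
  have hyP : ∀ r ∈ P, r * y = y * r := fun r hr => (Subgroup.mem_centralizer_iff.1 hy) r hr
  -- the elements `r * c` with `r ∈ P`, `c ∈ zpowers y` form a subgroup
  have hcl : ∀ z ∈ (P ⊔ Subgroup.zpowers y : Subgroup G), ∃ r ∈ P, ∃ c ∈ Subgroup.zpowers y,
      r * c = z ∧ Commute r c := by
    intro z hz
    have hle : (P ⊔ Subgroup.zpowers y : Subgroup G) ≤
        ({ carrier := {z | ∃ r ∈ P, ∃ c ∈ Subgroup.zpowers y, r * c = z ∧ Commute r c}
           one_mem' := ⟨1, P.one_mem, 1, Subgroup.one_mem _, by simp, Commute.one_left 1⟩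
           mul_mem' := by
            rintro a b ⟨r, hr, c, hc, e, hrc⟩ ⟨r', hr', c', hc', e', hrc'⟩
            obtain ⟨i, rfl⟩ := Subgroup.mem_zpowers_iff.1 hc
            obtain ⟨j, rfl⟩ := Subgroup.mem_zpowers_iff.1 hc'
            have h1 : ∀ s ∈ P, ∀ k : ℤ, Commute s (y ^ k) := fun s hs k =>
              (show Commute s y from hyP s hs).zpow_right k
            refine ⟨r * r', P.mul_mem hr hr', y ^ i * y ^ j, Subgroup.mul_mem _ hc hc', ?_, ?_⟩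
            · rw [← e, ← e']
              have h2 := (h1 r' hr' i).eq
              calc r * r' * (y ^ i * y ^ j) = r * (r' * y ^ i) * y ^ j := by group
                _ = r * (y ^ i * r') * y ^ j := by rw [h2]
                _ = r * y ^ i * (r' * y ^ j) := by group
            · rw [← zpow_add]
              exact h1 _ (P.mul_mem hr hr') _
           inv_mem' := by
            rintro a ⟨r, hr, c, hc, e, hrc⟩
            refine ⟨r⁻¹, P.inv_mem hr, c⁻¹, Subgroup.inv_mem _ hc, ?_, hrc.inv_inv⟩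
            rw [← e, mul_inv_rev]
            exact hrc.inv_inv.eq } : Subgroup G) := by
      refine sup_le ?_ ?_
      · intro r hr
        exact ⟨r, hr, 1, Subgroup.one_mem _, mul_one r, Commute.one_right r⟩
      · intro c hc
        exact ⟨1, P.one_mem, c, hc, one_mul c, Commute.one_left c⟩
    exact hle hz
  rintro ⟨z, hz⟩
  obtain ⟨r, hr, c, hc, e, hrc⟩ := hcl z hz
  obtain ⟨k, hk⟩ := hP ⟨r, hr⟩
  obtain ⟨m, hm⟩ := hpe
  obtain ⟨i, rfl⟩ := Subgroup.mem_zpowers_iff.1 hc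
  have hk' : r ^ p ^ k = 1 := by
    have := congrArg Subtype.val hk
    simpa using this
  refine ⟨k + m, ?_⟩
  apply Subtype.ext
  change z ^ p ^ (k + m) = 1
  rw [← e, hrc.mul_pow, pow_add, pow_mul, hk', one_pow, one_mul, mul_comm (p ^ k), pow_mul,
    ← zpow_natCast (y ^ i), ← zpow_mul, mul_comm i, zpow_mul, zpow_natCast, hm, one_zpow, one_pow]

end

theorem CNR (hCON : CON_stmt) (hFUS : FUS_stmt) (hEXB : EXB_stmt) : CNR_stmt := by
  intro p M hS G _ _ D x θ χ hR P hPD y hy hpe ψ hψ hb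
  have hDp : IsPGroup p D := hR.dfa.pgrp
  have hPp : IsPGroup p P := hDp.to_le hPD
  have hQp : IsPGroup p (P ⊔ Subgroup.zpowers y : Subgroup G) := CNR_pgroup hPp hy hpe
  have hQ : cz (P ⊔ Subgroup.zpowers y) = Cz (cz P) y := cz_sup_zpowers P y
  have hDP : cz D ≤ cz P := cz_mono hPD
  have hDD : D ≤ cz D := le_cz_of_com hR.com
  have hψQ : ψ ∈ IrrOn (cz (P ⊔ Subgroup.zpowers y)) := by rw [hQ]; exact hψ
  have hCzle : Cz (cz P) y ≤ cz P := fun z hz => (mem_Cz.1 hz).1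
  have hψ0 : ∀ z, z ∉ Cz (cz P) y → ψ z = 0 := fun z hz => IrrOn_zero hψ hz
  have hψ0' : ∀ z, z ∉ cz P → ψ z = 0 := fun z hz => hψ0 z fun h => hz (hCzle h)
  have hθ0 : ∀ z, z ∉ cz D → θ z = 0 := fun z hz => IrrOn_zero hR.th hz
  have hθ0' : ∀ z, z ∉ cz P → θ z = 0 := fun z hz => hθ0 z fun h => hz (hDP h)
  -- `Induces M ψ χ`
  have h1 : SB M (⊤ : Subgroup G) ψ θ := TRNb le_top hψ0' hθ0' hb
  have h2 : Induces M ψ χ := (SB_top_iff hS).1 (h1.trans ((SB_top_iff hS).2 hR.ind))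
  obtain ⟨g, hgD, hgb⟩ := hCON p M hS G D x θ χ hR (P ⊔ Subgroup.zpowers y) hQp ψ hψQ h2
  change cj g (P ⊔ Subgroup.zpowers y) ≤ D at hgD
  change SB M (cz (cj g (P ⊔ Subgroup.zpowers y))) θ (funMap (MulAut.conj g) ψ) at hgb
  have hcQ : cz (cj g (P ⊔ Subgroup.zpowers y)) = cj g (Cz (cz P) y) := by rw [cj_cz, hQ]
  -- `ψ₀`
  have hth : θ ∈ IrrOn (cz P ⊓ cz D) := by
    rw [inf_eq_right.2 hDP]
    exact hR.th
  obtain ⟨ψ₀, hψ₀, hb₀⟩ := hEXB p M hS G (cz P) D hDp (hDD.trans hDP) θ hth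
  have hP' : cj g P ≤ D := (cj_mono le_sup_left).trans hgD
  have hDQ : cz D ≤ cz (cj g (P ⊔ Subgroup.zpowers y)) := cz_mono hgD
  have hQP' : cz (cj g (P ⊔ Subgroup.zpowers y)) ≤ cz (cj g P) := cz_mono (cj_mono le_sup_left)
  have h3 : SB M (cz (cj g P)) θ (funMap (MulAut.conj g) ψ) := by
    refine TRNb hQP' (fun z hz => hθ0 z fun h => hz (hDQ h)) ?_ hgb
    rw [hcQ]
    exact funMap_zero hψ0 g
  have h4 : SB M (cz (cj g P)) (funMap (MulAut.conj g) ψ) (funMap (MulAut.conj g) ψ₀) := by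
    rw [cj_cz]
    exact SB_conj (hb.trans hb₀) g
  obtain ⟨l', hl', ht⟩ := hFUS p M hS G D x θ χ hR P hPD g hP' ψ₀ hψ₀ hb₀ (h3.trans h4)
  change l' ∈ cz (cj g P) at hl'
  -- `t = l' * g`, `l = t⁻¹ * g`
  have htn : l' * g ∈ nz D := (mem_TT.1 ht).1
  have hti := (TT M D θ).inv_mem ht
  have htin : (l' * g)⁻¹ ∈ nz D := (mem_TT.1 hti).1
  have hl : (l' * g)⁻¹ * g ∈ cz P := by
    rw [cj_cz, mem_cj] at hl'
    have h5 := (cz P).inv_mem hl'
    have h6 : (g⁻¹ * l' * g)⁻¹ = (l' * g)⁻¹ * g := by group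
    rwa [h6] at h5
  have hgy : g * y * g⁻¹ ∈ D :=
    hgD (conj_mem_cj.2 (le_sup_right (a := P) (Subgroup.mem_zpowers y)))
  have hu : ((l' * g)⁻¹ * g) * y * ((l' * g)⁻¹ * g)⁻¹ ∈ D := by
    have h5 := (Subgroup.mem_normalizer_iff.1 htin (g * y * g⁻¹)).1 hgy
    have h6 : (l' * g)⁻¹ * (g * y * g⁻¹) * (l' * g)⁻¹⁻¹ =
        ((l' * g)⁻¹ * g) * y * ((l' * g)⁻¹ * g)⁻¹ := by group
    rwa [h6] at h5
  refine ⟨(l' * g)⁻¹ * g, hl, hu, ?_⟩
  have hL : cj ((l' * g)⁻¹) (cz (cj g (P ⊔ Subgroup.zpowers y))) =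
      Cz (cz P) (((l' * g)⁻¹ * g) * y * ((l' * g)⁻¹ * g)⁻¹) := by
    rw [hcQ, ← cj_mul, ← cj_Cz, cj_self hl]
  have h5 := SB_conj hgb (l' * g)⁻¹
  rw [hL, ← funMap_mul] at h5
  have h6 : SB M (Cz (cz P) (((l' * g)⁻¹ * g) * y * ((l' * g)⁻¹ * g)⁻¹))
      (funMap (MulAut.conj (l' * g)⁻¹) θ) θ := by
    refine TRNb (H := cz D) ?_ ?_ hθ0 (mem_TT.1 hti).2
    · intro z hz
      refine mem_Cz.2 ⟨hDP hz, ?_⟩
      exact (Subgroup.mem_centralizer_iff.1 hz) _ hu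
    · have h7 := funMap_zero hθ0 (l' * g)⁻¹
      rwa [← cj_cz, cj_nz.2 htin] at h7
  exact h6.symm.trans h5

end Pool.Agent.FI
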