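import Pool.Agent.helper1.FI.SpecQ2

set_option autoImplicit false

namespace Pool.Agent.FI

open Pool.Agent.helper58.DC Pool.Agent.DI Pool.Agent.GR Pool.Agent.OB

section

variable {G : Type} [Group G]

theorem QA3_rsk (t : G) (K : Subgroup G) (a : G → ℂ) :
    rsk (cj t K) (fun y => a (t⁻¹ * y * t)) = fun y => rsk K a (t⁻¹ * y * t) := by
  funext y
  unfold rsk
  by_cases hy : y ∈ cj t K
  · rw [if_pos hy, if_pos (mem_cj.1 hy)]
  · rw [if_neg hy, if_neg fun h => hy (mem_cj.2 h)]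

end

theorem QA3 (hQEB : QEB_stmt) : QA3_stmt := by
  intro G _ _ M D P hPD hcom θ hθ a hQ t ht
  obtain ⟨ht1, ht2⟩ := Subgroup.mem_inf.1 ht
  obtain ⟨hE, hcv⟩ := hQEB G M D θ (fun x hx => IrrOn_zero hθ hx) t
  have hE := hE ht1
  have htn : t ∈ nz D := (mem_TT.1 ht1).1
  have hti : t⁻¹ ∈ nz D := (nz D).inv_mem htn
  have hDP : cz D ≤ cz P := cz_mono hPD
  have hcD : cj t (cz D) = cz D := by rw [← cj_cz, cj_nz.2 htn]
  have hcP : cj t (cz P) = cz P := cj_self ht2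
  -- transport of a block idempotent
  have key : ∀ H K : Subgroup G, cz D ≤ H → cj t H = K → eBl M K θ = fun y => eBl M H θ (t⁻¹ * y * t) := by
    intro H K hH hK
    funext y
    have h1 := hE H hH (t⁻¹ * y * t)
    have h2 : t * (t⁻¹ * y * t) * t⁻¹ = y := by group
    rw [h2] at h1
    rw [← h1]
    rw [← hK]
    rfl
  have he := key (cz D) (cz D) le_rfl hcD
  have hf := key (cz P) (cz P) hDP hcP
  refine ⟨?_, ?_, ?_, ?_, ?_, ?_, ?_, ?_⟩
  · intro y hy
    refine hQ.sup _ fun h => hy ?_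
    have h1 : y ∈ cj t (cz P) := mem_cj.2 h
    rwa [hcP] at h1
  · exact fun y => hQ.int _
  · intro s hs x
    have h1 : t⁻¹ * s * t⁻¹⁻¹ ∈ cz D := cz_conj hti hs
    have h2 := hQ.inv _ h1 (t⁻¹ * x * t)
    change a (t⁻¹ * (s * x * s⁻¹) * t) = a (t⁻¹ * x * t)
    rw [← h2]
    congr 1
    group
  · rw [he, hcv, hQ.left]
  · rw [he, hcv, hQ.right]
  · rw [hf, hcv, hQ.blk]
  · intro x
    have h1 := QA3_rsk t (cz D) a
    rw [hcD] at h1
    rw [h1, he]
    exact hQ.cen _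
  · intro u hu x
    have hu' : t⁻¹ * u * t ∈ D := by
      have h1 := (Subgroup.mem_normalizer_iff.1 hti u).1 hu
      rwa [inv_inv] at h1
    have hK : cj t (Cz (cz P) (t⁻¹ * u * t)) = Cz (cz P) u := by
      rw [← cj_Cz, hcP]
      congr 1
      group
    have hCK : cz D ≤ Cz (cz P) (t⁻¹ * u * t) := by
      intro z hz
      exact mem_Cz.2 ⟨hDP hz, (Subgroup.mem_centralizer_iff.1 hz) _ hu'⟩
    have h1 := QA3_rsk t (Cz (cz P) (t⁻¹ * u * t)) a
    rw [hK] at h1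
    rw [h1, key _ _ hCK hK, hcv]
    exact hQ.loc _ hu' _

end Pool.Agent.FI
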